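import Mathlib
import Pool.Agent.Helper9.NS
import Pool.Agent.Helper21.TZ.Defs
import Pool.Agent.Helper15.GT.ExtP
import Pool.Agent.Helper15.GT.KBase
import Pool.Agent.Helper21.TO.TwOf
import Pool.Agent.Helper21.TO.ResL

/-!
# Block KP-TRC: the trace of a harmonic function over a curve without nonconstant harmonic functions
-/

set_option linter.unusedSectionVars false

namespace Pool.Agent.Helper15.KP

open VC VF Function Polynomial
open Pool.Agent.Helper21.TO Pool.Agent.Helper21.TB Pool.Agent.Helper15.GT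
open Pool.Agent.Helper51.VN (Harm)

universe u

variable {k : Type u} [Field k] [IsAlgClosed k] [CharZero k]

private theorem tra_trc {F L : Type u} [Field F] [Algebra k F] [Field L] [Algebra k L]
    [Algebra F L] [IsScalarTower k F L] (hF : IsFunctionField k F) (hL : IsFunctionField k L)
    (H : Subgroup (L ≃ₐ[k] L)) (hfin : Finite H)
    (hfixed : ∀ z : L, (∀ τ ∈ H, τ z = z) → z ∈ Set.range (algebraMap F L))
    {P : Place k F} {v v' : Place k L}
    (h : Ab P v) (h' : Ab P v') : ∃ τ ∈ H, Over v' ((τ : L ≃ₐ[k] L) : L →ₐ[k] L) v := by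
  classical
  by_contra hcon
  push Not at hcon
  have hFt : Fintype H := Fintype.ofFinite _
  let V : H → Place k L := fun τ => Place.comap hL hL ((τ : L ≃ₐ[k] L) : L →ₐ[k] L) v
  let V' : H → Place k L := fun τ => Place.comap hL hL ((τ : L ≃ₐ[k] L) : L →ₐ[k] L) v'
  have hV : ∀ τ, Over (V τ) ((τ : L ≃ₐ[k] L) : L →ₐ[k] L) v := fun τ => over_comap _ _ _ _
  have hV' : ∀ τ, Over (V' τ) ((τ : L ≃ₐ[k] L) : L →ₐ[k] L) v' := fun τ => over_comap _ _ _ _
  have hne : ∀ ρ τ, V' ρ ≠ V τ := by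
    intro ρ τ h
    refine hcon _ (τ * ρ⁻¹).2 ?_
    intro z c hz
    have h1 : IsRes (V' ρ) ((ρ : L ≃ₐ[k] L).symm z) c := by
      rw [← (hV' ρ).isRes_iff hL]
      have e : (((ρ : L ≃ₐ[k] L) : L →ₐ[k] L)) ((ρ : L ≃ₐ[k] L).symm z) = z :=
        (ρ : L ≃ₐ[k] L).apply_symm_apply z
      rwa [e]
    rw [h] at h1
    exact hV τ _ _ h1
  obtain ⟨y, hy⟩ := wa hL (Set.range V ∪ Set.range V')
    ((Set.finite_range V).union (Set.finite_range V')) (fun _ => 1) (fun _ => one_ne_zero)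
    (fun w => if w ∈ Set.range V then 1 else 0)
  have h1 : ∀ τ : H, IsRes v ((τ : L ≃ₐ[k] L) y) 1 := by
    intro τ
    have h := hy (V τ) (Or.inl ⟨τ, rfl⟩)
    have e : (if V τ ∈ Set.range V then (1 : k) else 0) = 1 := if_pos ⟨τ, rfl⟩
    rw [one_mul, e] at h
    exact hV τ _ _ h
  have h2 : ∀ τ : H, IsRes v' ((τ : L ≃ₐ[k] L) y) 0 := by
    intro τ
    have h := hy (V' τ) (Or.inr ⟨τ, rfl⟩)
    have e : (if V' τ ∈ Set.range V then (1 : k) else 0) = 0 := by
      apply if_neg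
      rintro ⟨ρ, hρ⟩
      exact hne τ ρ hρ.symm
    rw [one_mul, e] at h
    exact hV' τ _ _ h
  have h3 : IsRes v (∏ τ : H, (τ : L ≃ₐ[k] L) y) 1 := by
    have := isRes_prodB (v := v) Finset.univ (fun τ : H => (τ : L ≃ₐ[k] L) y) (fun _ => 1)
      (fun τ _ => h1 τ)
    rwa [Finset.prod_const_one] at this
  have h4 : IsRes v' (∏ τ : H, (τ : L ≃ₐ[k] L) y) 0 := by
    have := isRes_prodB (v := v') Finset.univ (fun τ : H => (τ : L ≃ₐ[k] L) y) (fun _ => 0)
      (fun τ _ => h2 τ)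
    have e : (∏ _τ : H, (0 : k)) = 0 := Finset.prod_eq_zero (Finset.mem_univ (1 : H)) rfl
    rwa [e] at this
  have h5 : (∏ τ : H, (τ : L ≃ₐ[k] L) y) ∈ Set.range (algebraMap F L) := by
    apply hfixed
    intro σ hσ
    rw [map_prod]
    exact Fintype.prod_equiv (Equiv.mulLeft (⟨σ, hσ⟩ : H)) _ _ (fun τ => rfl)
  obtain ⟨f, hf⟩ := h5
  rw [← hf] at h3 h4
  have h6 : IsRes P f 1 := (h.isRes_iff hF).mp h3
  have h7 : IsRes P f 0 := (h'.isRes_iff hF).mp h4
  exact one_ne_zero (h6.unique h7)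

/-- restriction of a group action on `Ω` to the subfield `κ L` -/
private theorem exists_tau {L Ω : Type u} [Field L] [Algebra k L] [Field Ω] [Algebra k Ω]
    (κ : L →ₐ[k] Ω) {G : Type u} [Group G] (ρ : G →* (Ω ≃ₐ[k] Ω))
    (hst : ∀ g (z : L), ρ g (κ z) ∈ Set.range κ) :
    ∃ τ : G →* (L ≃ₐ[k] L), ∀ g z, κ (τ g z) = ρ g (κ z) := by
  classical
  have hinj : Function.Injective κ := κ.toRingHom.injective
  choose r hr using hst
  let f : G → (L →ₐ[k] L) := fun g =>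
    { toFun := r g
      map_one' := hinj (by rw [hr, map_one, map_one])
      map_mul' := fun x y => hinj (by rw [hr, map_mul, map_mul, map_mul, hr, hr])
      map_zero' := hinj (by rw [hr, map_zero, map_zero])
      map_add' := fun x y => hinj (by rw [hr, map_add, map_add, map_add, hr, hr])
      commutes' := fun c => hinj (by rw [hr, κ.commutes, (ρ g).commutes]) }
  have hf : ∀ g z, κ (f g z) = ρ g (κ z) := fun g z => hr g z
  have hmul : ∀ g h z, f (g * h) z = f g (f h z) := by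
    intro g h z
    apply hinj
    rw [hf, hf, hf, map_mul]
    rfl
  have hone : ∀ z, f 1 z = z := by
    intro z
    apply hinj
    rw [hf, map_one]
    rfl
  let e : G → (L ≃ₐ[k] L) := fun g => AlgEquiv.ofAlgHom (f g) (f g⁻¹)
    (AlgHom.ext fun z => by
      change f g (f g⁻¹ z) = z
      rw [← hmul, mul_inv_cancel, hone])
    (AlgHom.ext fun z => by
      change f g⁻¹ (f g z) = z
      rw [← hmul, inv_mul_cancel, hone])
  refine ⟨{ toFun := e
            map_one' := AlgEquiv.ext fun z => hone z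
            map_mul' := fun g h => AlgEquiv.ext fun z => hmul g h z }, fun g z => hf g z⟩

theorem trace_const {K L Ω : Type u} [Field K] [Algebra k K] [Field L] [Algebra k L]
    [Algebra K L] [IsScalarTower k K L] [Field Ω] [Algebra k Ω] (hK : IsFunctionField k K)
    (hL : IsFunctionField k L) (hconst : ∀ μ : Place k K → k, Harm hK μ → ∀ P Q, μ P = μ Q)
    (κ : L →ₐ[k] Ω) {G : Type u} [Group G] [Fintype G] (ρ : G →* (Ω ≃ₐ[k] Ω))
    (hst : ∀ g (z : L), ρ g (κ z) ∈ Set.range κ)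
    (hfix : ∀ z : L, (∀ g, ρ g (κ z) = κ z) ↔ z ∈ Set.range (algebraMap K L))
    {l : Place k L → k} (hl : Harm hL l) :
    ∃ C : k, ∀ w : RPl k Ω,
      ∑ g, l ((w.comap ((ρ g : Ω ≃ₐ[k] Ω) : Ω →ₐ[k] Ω)).pl hL κ) = C := by
  classical
  obtain ⟨τ, hτ⟩ := exists_tau κ ρ hst
  have hinj : Function.Injective κ := κ.toRingHom.injective
  let T : Place k L → k := fun v => ∑ g, l (Place.comap hL hL ((τ g : L ≃ₐ[k] L) : L →ₐ[k] L) v)
  have hT1 : ∀ w : RPl k Ω,
      ∑ g, l ((w.comap ((ρ g : Ω ≃ₐ[k] Ω) : Ω →ₐ[k] Ω)).pl hL κ) = T (w.pl hL κ) := by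
    intro w
    refine Finset.sum_congr rfl fun g _ => ?_
    congr 1
    ext z
    change (ρ g) (κ z) ∈ w.ring ↔ κ ((τ g) z) ∈ w.ring
    rw [hτ]
  have hT2 : Harm hL T := by
    intro f hf
    have h1 : ∀ g, ∑ v ∈ (finite_support_ord hL hf).toFinset, (ord v.ring f : k) *
        l (Place.comap hL hL ((τ g : L ≃ₐ[k] L) : L →ₐ[k] L) v) = 0 := fun g =>
      pull_harm hL ((τ g : L ≃ₐ[k] L) : L →ₐ[k] L) hl f hf
    have h2 : ∀ v : Place k L, (ord v.ring f : k) * T v =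
        ∑ g, (ord v.ring f : k) * l (Place.comap hL hL ((τ g : L ≃ₐ[k] L) : L →ₐ[k] L) v) :=
      fun v => Finset.mul_sum _ _ _
    simp only [h2]
    rw [Finset.sum_comm]
    exact Finset.sum_eq_zero fun g _ => h1 g
  have hT3 : ∀ (h : G) (v : Place k L),
      T (Place.comap hL hL ((τ h : L ≃ₐ[k] L) : L →ₐ[k] L) v) = T v := by
    intro h v
    have e1 : ∀ g, Place.comap hL hL ((τ g : L ≃ₐ[k] L) : L →ₐ[k] L)
        (Place.comap hL hL ((τ h : L ≃ₐ[k] L) : L →ₐ[k] L) v) =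
        Place.comap hL hL ((τ (h * g) : L ≃ₐ[k] L) : L →ₐ[k] L) v := by
      intro g
      ext z
      change τ h (τ g z) ∈ v.ring ↔ τ (h * g) z ∈ v.ring
      rw [map_mul]
      rfl
    change ∑ g, l (Place.comap hL hL ((τ g : L ≃ₐ[k] L) : L →ₐ[k] L)
        (Place.comap hL hL ((τ h : L ≃ₐ[k] L) : L →ₐ[k] L) v)) =
      ∑ g, l (Place.comap hL hL ((τ g : L ≃ₐ[k] L) : L →ₐ[k] L) v)
    simp only [e1]
    exact Fintype.sum_equiv (Equiv.mulLeft h) _ _ fun g => rfl
  have hfin : Finite τ.range := (Set.finite_range τ).to_subtype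
  have hT4 : ∀ v v' : Place k L, VQ.res hK hL v = VQ.res hK hL v' → T v = T v' := by
    intro v v' h
    have hab : Ab (VQ.res hK hL v) v := over_res hK hL v
    have hab' : Ab (VQ.res hK hL v) v' := by
      rw [h]
      exact over_res hK hL v'
    obtain ⟨σ, ⟨g, rfl⟩, hov⟩ := tra_trc hK hL τ.range hfin (fun z hz => (hfix z).mp fun g => by
      rw [← hτ, hz (τ g) ⟨g, rfl⟩]) hab hab'
    have e : Place.comap hL hL ((τ g : L ≃ₐ[k] L) : L →ₐ[k] L) v = v' := by
      symm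
      apply FF.place_eq_of_le hL
      intro z hz
      obtain ⟨c, hc⟩ := exists_res hL hz
      exact (hov _ _ hc).mem
    rw [← e, hT3]
  obtain ⟨μ, hμ, hμ2⟩ := exists_avg hK hL hT2
  have hT5 : ∀ v, μ (VQ.res hK hL v) = T v := fun v => hμ2 _ _ fun w hw => hT4 w v hw
  rcases isEmpty_or_nonempty (Place k L) with hE | ⟨⟨v0⟩⟩
  · exact ⟨0, fun w => (hE.false (w.pl hL κ)).elim⟩
  · refine ⟨T v0, fun w => ?_⟩
    rw [hT1, ← hT5, ← hT5]
    exact hconst μ hμ _ _

end Pool.Agent.Helper15.KP
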